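import Mathlib

/-!
Uncountable abelian groups are unions of chains of subgroups which are order isomorphic to the real
line, and abelian groups which are not finitely generated are unions of increasing sequences of proper
subgroups.
-/

set_option autoImplicit false

open Set Cardinal

namespace Pool.Agent.H72.NS

/-- a strictly increasing family of subgroups, indexed by `ℝ`, with union `A` -/
def Chain (A : Type*) [AddCommGroup A] : Prop :=
  ∃ f : ℝ → AddSubgroup A, StrictMono f ∧ ∀ a, ∃ t, a ∈ f t

/-- a homomorphism to the finitely supported functions on `ℚ` gives a chain of subgroups -/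
theorem chain_of_hom {A D : Type*} [AddCommGroup A] [AddCommGroup D] (F : A →+ (ℚ →₀ D))
    (d : D) (hd : d ≠ 0) (e : ℚ → A) (he : ∀ q, F (e q) = Finsupp.single q d) : Chain A := by
  classical
  refine ⟨fun t =>
    { carrier := {a | ∀ q : ℚ, F a q ≠ 0 → (q : ℝ) < t}
      zero_mem' := fun q hq => absurd (by rw [map_zero, Finsupp.zero_apply]) hq
      add_mem' := ?_
      neg_mem' := ?_ }, ?_, ?_⟩
  · intro a b ha hb q hq
    by_cases h : F a q = 0
    · refine hb q fun h' => hq ?_
      rw [map_add, Finsupp.add_apply, h, h', add_zero]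
    · exact ha q h
  · intro a ha q hq
    refine ha q fun h => hq ?_
    rw [map_neg, Finsupp.neg_apply, h, neg_zero]
  · intro t u htu
    obtain ⟨q, hq, hq'⟩ := exists_rat_btwn htu
    refine SetLike.lt_iff_le_and_exists.2 ⟨fun a ha q' hq' => lt_trans (ha q' hq') htu,
      e q, ?_, ?_⟩
    · intro q' h
      rw [he, Finsupp.single_apply] at h
      have h1 : q = q' := by
        by_contra hc
        exact h (if_neg hc)
      rw [← h1]
      exact hq'
    · intro h
      have h1 := h q (by
        rw [he, Finsupp.single_eq_same]
        exact hd)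
      exact lt_asymm h1 hq
  · intro a
    obtain ⟨M, hM⟩ := ((F a).support.image fun q : ℚ => (q : ℝ)).exists_le
    refine ⟨M + 1, fun q hq => ?_⟩
    have h1 : (q : ℝ) ≤ M := hM _ (Finset.mem_image_of_mem _ (Finsupp.mem_support_iff.2 hq))
    linarith

/-- the finitely supported functions with values in a divisible group -/
theorem baer_finsupp (D : Type*) [AddCommGroup D] [DivisibleBy D ℤ] :
    Module.Baer ℤ (ℚ →₀ D) := by
  classical
  have : ∀ {m : ℤ}, m ≠ 0 → Function.Surjective fun f : ℚ →₀ D => m • f := by
    intro m hm f
    refine ⟨f.mapRange (fun a => if a = 0 then 0 else DivisibleBy.div a m) (if_pos rfl), ?_⟩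
    ext q
    change (m • (Finsupp.mapRange _ _ f)) q = f q
    rw [Finsupp.smul_apply, Finsupp.mapRange_apply]
    split_ifs with h
    · rw [smul_zero, h]
    · exact DivisibleBy.div_cancel _ hm
  let _ : DivisibleBy (ℚ →₀ D) ℤ := divisibleByOfSMulRightSurj _ _ this
  exact Module.Baer.of_divisible _

/-- linearly independent families indexed by `ℚ` in a subgroup -/
theorem chain_of_linearIndependent {R T A D : Type*} [Ring R] [Nontrivial R] [AddCommGroup T]
    [Module R T] [AddCommGroup A] [AddCommGroup D] [DivisibleBy D ℤ] (φ : R →+ D) (hφ : φ 1 ≠ 0)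
    (g : T →+ A) (hg : Function.Injective g) (v : ℚ → T) (hv : LinearIndependent R v) :
    Chain A := by
  classical
  let B := Submodule.span R (range v)
  let f₀ : B →+ (ℚ →₀ D) :=
    (Finsupp.mapRange.addMonoidHom φ).comp hv.repr.toAddMonoidHom
  obtain ⟨F, hF⟩ := (baer_finsupp D).extension_property_addMonoidHom
    (g.comp B.subtype.toAddMonoidHom) (hg.comp Subtype.val_injective) f₀
  refine chain_of_hom F (φ 1) hφ (fun q => g (v q)) fun q => ?_
  have h1 : F (g (v q)) = f₀ ⟨v q, Submodule.subset_span ⟨q, rfl⟩⟩ := by
    rw [← hF]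
    rfl
  rw [h1]
  change Finsupp.mapRange φ (map_zero φ) (hv.repr ⟨v q, _⟩) = _
  rw [hv.repr_eq_single q _ rfl, Finsupp.mapRange_single]

theorem exists_rat_family {R M : Type*} [Ring R] [Nontrivial R] [AddCommGroup M] [Module R M]
    {ι : Type*} [Infinite ι] (v : ι → M) (hv : LinearIndependent R v) :
    ∃ w : ℚ → M, LinearIndependent R w := by
  obtain ⟨f⟩ : Nonempty (ℕ ↪ ι) := ⟨Infinite.natEmbedding ι⟩
  have e : ℚ ↪ ι := (Encodable.encode' ℚ).trans f
  exact ⟨v ∘ e, hv.comp e e.injective⟩

/-- infinite elementary abelian groups -/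
theorem family_of_vs {p : ℕ} [Fact p.Prime] (T : Type*) [AddCommGroup T] [Module (ZMod p) T]
    [Infinite T] : ∃ w : ℚ → T, LinearIndependent (ZMod p) w := by
  have hinf : Infinite (Module.Basis.ofVectorSpaceIndex (ZMod p) T) := by
    by_contra hf
    rw [not_infinite_iff_finite] at hf
    have hT : Finite T := by
      have := Module.Finite.of_basis (Module.Basis.ofVectorSpace (ZMod p) T)
      exact Module.finite_of_finite (ZMod p)
    exact not_finite T
  exact exists_rat_family (R := ZMod p) (M := T)
    (fun i => Module.Basis.ofVectorSpace (ZMod p) T i)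
    (Module.Basis.ofVectorSpace (ZMod p) T).linearIndependent

theorem chain_of_prime {A : Type*} [AddCommGroup A] {p : ℕ} (hp : p.Prime)
    (h : Infinite {a : A // p • a = 0}) : Chain A := by
  have : Fact p.Prime := ⟨hp⟩
  let T : AddSubgroup A := AddMonoidHom.ker (nsmulAddMonoidHom (α := A) p)
  have hinf : Infinite T := h
  let _ : Module (ZMod p) T := AddCommGroup.zmodModule (n := p) fun x => by
    apply Subtype.ext
    have h1 := x.2
    exact h1
  obtain ⟨w, hw⟩ := family_of_vs (p := p) T
  exact chain_of_linearIndependent (R := ZMod p) (ZMod.toAddCircle (N := p))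
    (fun h => one_ne_zero (ZMod.toAddCircle_eq_zero.1 h)) T.subtype T.subtype_injective w hw

/-- the elements of order dividing `m` -/
theorem torsion_finite {A : Type*} [AddCommGroup A]
    (h : ∀ p : ℕ, p.Prime → {a : A | p • a = 0}.Finite) (m : ℕ) (hm : 0 < m) :
    {a : A | m • a = 0}.Finite := by
  induction m using Nat.strong_induction_on with
  | _ m ih =>
    by_cases h1 : m = 1
    · subst h1
      refine (finite_singleton (0 : A)).subset fun a ha => ?_
      have ha' : (1 : ℕ) • a = 0 := ha
      rwa [one_smul] at ha'
    obtain ⟨p, hp, k, rfl⟩ := Nat.exists_prime_and_dvd h1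
    have hk : 0 < k := Nat.pos_of_mul_pos_left hm
    have hk' : k < p * k := by
      have := hp.two_le
      nlinarith
    refine Set.Finite.of_finite_fibers (fun a => p • a) ((ih k hk' hk).subset ?_) ?_
    · rintro _ ⟨a, ha, rfl⟩
      have ha' : (p * k) • a = 0 := ha
      change k • p • a = 0
      rw [smul_smul, mul_comm]
      exact ha'
    · rintro _ ⟨a₀, ha₀, rfl⟩
      refine ((h p hp).image fun a => a + a₀).subset ?_
      rintro a ⟨-, ha⟩
      have ha' : p • a = p • a₀ := ha
      refine ⟨a - a₀, ?_, sub_add_cancel _ _⟩
      change p • (a - a₀) = 0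
      rw [smul_sub, ha', sub_self]

/-- an uncountable abelian group is the union of a chain of subgroups which is order isomorphic to
`ℝ` -/
theorem chain_of_uncountable (A : Type*) [AddCommGroup A] [hA : Uncountable A] : Chain A := by
  classical
  by_cases hp : ∀ p : ℕ, p.Prime → {a : A | p • a = 0}.Finite
  · obtain ⟨s, hs, hmax⟩ := exists_maximal_linearIndepOn ℤ (id : A → A)
    rw [image_id] at hmax
    by_cases hfin : s.Finite
    · exfalso
      have hspan : (Submodule.span ℤ s : Set A).Countable := by
        have h1 : Submodule.span ℤ s =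
            LinearMap.range (Finsupp.linearCombination ℤ ((↑) : s → A)) := by
          rw [Finsupp.range_linearCombination, Subtype.range_coe]
        rw [h1, LinearMap.coe_range]
        have : Finite s := hfin
        exact countable_range _
      have hcov : (univ : Set A) ⊆ ⋃ m : ℕ, ⋃ y ∈ (Submodule.span ℤ s : Set A),
          {a : A | (m + 1) • a = y} := by
        intro a _
        by_cases ha : a ∈ s
        · refine mem_iUnion.2 ⟨0, mem_iUnion₂.2 ⟨a, Submodule.subset_span ha, ?_⟩⟩
          change (0 + 1) • a = a
          rw [zero_add, one_smul]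
        · obtain ⟨c, hc, hca⟩ := hmax a ha
          have hpos : 0 < c.natAbs := Int.natAbs_pos.2 hc
          refine mem_iUnion.2 ⟨c.natAbs - 1, mem_iUnion₂.2 ⟨c.natAbs • a, ?_, ?_⟩⟩
          · rcases Int.natAbs_eq c with h | h
            · have e : (c.natAbs : ℤ) • a = c • a := by rw [← h]
              rw [SetLike.mem_coe, ← natCast_zsmul, e]
              exact hca
            · have e : (c.natAbs : ℤ) • a = -(c • a) := by
                rw [← neg_smul]
                congr 1
                omega
              rw [SetLike.mem_coe, ← natCast_zsmul, e]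
              exact neg_mem hca
          · change (c.natAbs - 1 + 1) • a = _
            rw [Nat.sub_add_cancel hpos]
      have hcount : (univ : Set A).Countable := by
        refine Countable.mono hcov (countable_iUnion fun m => Countable.biUnion hspan fun y _ => ?_)
        have hfin' := torsion_finite hp (m + 1) m.succ_pos
        by_cases hy : ∃ a₀ : A, (m + 1) • a₀ = y
        · obtain ⟨a₀, ha₀⟩ := hy
          refine (hfin'.image fun a => a + a₀).countable.mono ?_
          intro a ha
          refine ⟨a - a₀, ?_, sub_add_cancel _ _⟩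
          have ha' : (m + 1) • a = y := ha
          change (m + 1) • (a - a₀) = 0
          rw [smul_sub, ha', ha₀, sub_self]
        · have : {a : A | (m + 1) • a = y} = ∅ := by
            refine eq_empty_of_forall_notMem fun a ha => hy ⟨a, ha⟩
          rw [this]
          exact countable_empty
      exact (not_countable_iff.2 hA) (Set.countable_univ_iff.1 hcount)
    · have : Infinite s := Set.infinite_coe_iff.2 hfin
      obtain ⟨w, hw⟩ := exists_rat_family (R := ℤ) _ hs
      refine chain_of_linearIndependent (R := ℤ)
        ((ZMod.toAddCircle (N := 2)).comp (Int.castAddHom (ZMod 2))) ?_ (AddMonoidHom.id A)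
        Function.injective_id w hw
      intro h
      have h1 := ZMod.toAddCircle_eq_zero.1 h
      change ((1 : ℤ) : ZMod 2) = 0 at h1
      revert h1
      decide
  · push Not at hp
    obtain ⟨p, hp, hinf⟩ := hp
    exact chain_of_prime hp (Set.infinite_coe_iff.2 hinf)

/-- an abelian group which is not finitely generated is the union of an increasing sequence of proper
subgroups -/
theorem seq_of_not_fg (A : Type*) [AddCommGroup A]
    (hA : ∀ T : Finset A, AddSubgroup.closure (T : Set A) ≠ ⊤) :
    ∃ f : ℕ → AddSubgroup A, Monotone f ∧ (∀ k, f k ≠ ⊤) ∧ ∀ a, ∃ k, a ∈ f k := by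
  classical
  rcases (em (Countable A)).imp_right not_countable_iff.1 with hc | hu
  · have : Nonempty A := ⟨0⟩
    obtain ⟨g, hg⟩ := exists_surjective_nat A
    refine ⟨fun k => AddSubgroup.closure (((Finset.range (k + 1)).image g : Finset A) : Set A),
      fun i j hij => AddSubgroup.closure_mono ?_, fun k => hA _, fun a => ?_⟩
    · exact Finset.coe_subset.2 (Finset.image_subset_image
        (Finset.range_subset_range.2 (Nat.succ_le_succ hij)))
    · obtain ⟨k, rfl⟩ := hg a
      exact ⟨k, AddSubgroup.subset_closure (Finset.mem_coe.2 (Finset.mem_image_of_mem _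
        (Finset.mem_range.2 (Nat.lt_succ_self k))))⟩
  · obtain ⟨f, hf, hf'⟩ := chain_of_uncountable A
    refine ⟨fun k => f k, fun i j hij => hf.monotone (by exact_mod_cast hij), fun k h => ?_,
      fun a => ?_⟩
    · have h1 : f (k : ℝ) < f ((k : ℝ) + 1) := hf (lt_add_one _)
      have h2 : f (k : ℝ) = ⊤ := h
      rw [h2] at h1
      exact not_top_lt h1
    · obtain ⟨t, ht⟩ := hf' a
      obtain ⟨k, hk⟩ := exists_nat_ge t
      exact ⟨k, hf.monotone hk ht⟩

end Pool.Agent.H72.NS
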