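import Pool.Graph.R_pool_sql_team_seeded_3997aac3.Q175.HM.Cor2
import Pool.Agent.H72.NS.Ab

/-!
Groups with contractions: the normal closures of the images of the contractions, and chains of normal
subgroups.
-/

set_option autoImplicit false

open Set Cardinal

namespace Pool.Agent.H72.NS

open Pool.Agent.Q175.HM

variable {G : Type} [Group G]

/-- the normal closure of the image of the contraction with factor `r` -/
def FF (S : DS G) (r : ℝ) : Subgroup G := Subgroup.normalClosure (range (S.d r))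

variable (S : DS G)

theorem FF_normal (r : ℝ) : (FF S r).Normal := Subgroup.normalClosure_normal

theorem mem_FF {r : ℝ} (g : G) : S.d r g ∈ FF S r := Subgroup.subset_normalClosure ⟨g, rfl⟩

theorem FF_le {r : ℝ} {N : Subgroup G} (hN : N.Normal) (h : ∀ g, S.d r g ∈ N) : FF S r ≤ N := by
  apply Subgroup.normalClosure_le_normal
  rintro _ ⟨g, rfl⟩
  exact h g

theorem FF_mono {r s : ℝ} (hr : 0 < r) (hrs : r ≤ s) (hs : s ≤ 1) : FF S r ≤ FF S s := by
  refine FF_le S (FF_normal S s) fun g => ?_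
  have hs0 : 0 < s := hr.trans_le hrs
  have h1 : S.d r g = S.d s (S.d (r / s) g) := by
    rw [S.mul s (r / s) hs0 hs (div_pos hr hs0) ((div_le_one hs0).2 hrs), mul_div_cancel₀ _ hs0.ne']
  rw [h1]
  exact mem_FF S _

theorem FF_comap {r s : ℝ} (hr : 0 < r) (hr1 : r ≤ 1) (hs : 0 < s) (hs1 : s ≤ 1) :
    FF S s ≤ (FF S (r * s)).comap (S.d r) := by
  refine FF_le S ((FF_normal S _).comap _) fun g => ?_
  change S.d r (S.d s g) ∈ FF S (r * s)
  rw [S.mul r s hr hr1 hs hs1]
  exact mem_FF S _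

theorem FF_step {a b l : ℝ} (ha : 0 < a) (hab : a ≤ b) (hb : b ≤ 1) (h : FF S a = FF S b)
    (hl : 0 < l) (hl1 : l ≤ 1) : FF S (l * a) = FF S (l * b) := by
  have hb0 : 0 < b := ha.trans_le hab
  refine le_antisymm (FF_mono S (mul_pos hl ha) (mul_le_mul_of_nonneg_left hab hl.le)
    (mul_le_one₀ hl1 hb0.le hb)) (FF_le S (FF_normal S _) fun g => ?_)
  rw [← S.mul l b hl hl1 hb0 hb]
  have h1 : S.d b g ∈ FF S a := by
    rw [h]
    exact mem_FF S g
  exact FF_comap S hl hl1 ha (hab.trans hb) h1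

theorem FF_pow {a b : ℝ} (ha : 0 < a) (hab : a < b) (hb : b ≤ 1) (h : FF S a = FF S b) {y : ℝ}
    (hy : 0 < y) (hyb : y ≤ b) (k : ℕ) : FF S ((a / b) ^ k * y) = FF S y := by
  have hb0 : 0 < b := ha.trans hab
  have hq : 0 < a / b := div_pos ha hb0
  have hq1 : a / b ≤ 1 := (div_le_one hb0).2 hab.le
  induction k with
  | zero => rw [pow_zero, one_mul]
  | succ k ih =>
    rw [← ih]
    have hk : (a / b) ^ k ≤ 1 := pow_le_one₀ hq.le hq1
    have h1 := FF_step S ha hab.le hb h (l := (a / b) ^ k * y / b)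
      (div_pos (mul_pos (pow_pos hq k) hy) hb0) ((div_le_one hb0).2
        ((mul_le_of_le_one_left hy.le hk).trans hyb))
    have e1 : (a / b) ^ k * y / b * a = (a / b) ^ (k + 1) * y := by
      rw [pow_succ]
      ring
    have e2 : (a / b) ^ k * y / b * b = (a / b) ^ k * y := div_mul_cancel₀ _ hb0.ne'
    rw [e1, e2] at h1
    exact h1

theorem FF_const {a b : ℝ} (ha : 0 < a) (hab : a < b) (hb : b ≤ 1) (h : FF S a = FF S b) {x y : ℝ}
    (hx : 0 < x) (hxy : x ≤ y) (hyb : y ≤ b) : FF S x = FF S y := by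
  have hb0 : 0 < b := ha.trans hab
  have hy : 0 < y := hx.trans_le hxy
  refine le_antisymm (FF_mono S hx hxy (hyb.trans hb)) ?_
  obtain ⟨k, hk⟩ := exists_pow_lt_of_lt_one (div_pos hx hy) ((div_lt_one hb0).2 hab)
  rw [← FF_pow S ha hab hb h hy hyb k]
  refine FF_mono S (mul_pos (pow_pos (div_pos ha hb0) k) hy) ?_ (hxy.trans (hyb.trans hb))
  exact ((lt_div_iff₀ hy).1 hk).le

/-- the structure of the normal subgroups generated by the contractions -/
theorem exists_threshold : ∃ σ : ℝ, 0 ≤ σ ∧ σ ≤ 1 ∧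
    (∀ x y : ℝ, 0 < x → x ≤ y → y ≤ σ → y < 1 → FF S x = FF S y) ∧
    (∀ x y : ℝ, 0 < x → σ ≤ x → x < y → y < 1 → FF S x < FF S y) ∧
    (σ = 1 ↔ ∃ t : ℝ, 0 < t ∧ t < 1 ∧ FF S t = ⊤) := by
  let C : Set ℝ := {b | b < 1 ∧ ∃ a, 0 < a ∧ a < b ∧ FF S a = FF S b}
  have hC1 : ∀ b ∈ C, b ≤ 1 := fun b hb => hb.1.le
  have hbdd : BddAbove C := ⟨1, hC1⟩
  have hσ0 : 0 ≤ sSup C := Real.sSup_nonneg fun b hb => by
    obtain ⟨-, a, ha, hab, -⟩ := hb
    exact (ha.trans hab).le
  have hσ1 : sSup C ≤ 1 := Real.sSup_le hC1 zero_le_one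
  -- constant below
  have hlt : ∀ x y : ℝ, 0 < x → x ≤ y → y < sSup C → FF S x = FF S y := by
    intro x y hx hxy hy
    have hne : C.Nonempty := by
      by_contra hc
      rw [not_nonempty_iff_eq_empty] at hc
      rw [hc, Real.sSup_empty] at hy
      linarith
    obtain ⟨b, ⟨hb1, a, ha, hab, h⟩, hyb⟩ := exists_lt_of_lt_csSup hne hy
    exact FF_const S ha hab hb1.le h hx hxy hyb.le
  have hle : ∀ x y : ℝ, 0 < x → x ≤ y → y ≤ sSup C → y < 1 → FF S x = FF S y := by
    intro x y hx hxy hy hy1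
    rcases hy.lt_or_eq with hy' | hy'
    · exact hlt x y hx hxy hy'
    rcases hxy.eq_or_lt with rfl | hxy'
    · rfl
    refine le_antisymm (FF_mono S hx hxy hy1.le) (FF_le S (FF_normal S x) fun g => ?_)
    have hy0 : 0 < y := hx.trans hxy'
    obtain ⟨t, ht, ht1, h, rfl⟩ := S.union g
    rw [S.mul y t hy0 hy1.le ht ht1.le]
    have h1 : y * t < y := mul_lt_of_lt_one_right hy0 ht1
    have h2 : FF S (y * t) ≤ FF S x := by
      rcases le_or_gt (y * t) x with h3 | h3
      · exact FF_mono S (mul_pos hy0 ht) h3 (hxy.trans hy1.le)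
      · exact (hlt x (y * t) hx h3.le (h1.trans_eq hy')).ge
    exact h2 (mem_FF S _)
  have hgt : ∀ x y : ℝ, 0 < x → sSup C ≤ x → x < y → y < 1 → FF S x < FF S y := by
    intro x y hx hσx hxy hy1
    refine lt_of_le_of_ne (FF_mono S hx hxy.le hy1.le) fun h => ?_
    have h1 : y ∈ C := ⟨hy1, x, hx, hxy, h⟩
    have h2 := le_csSup hbdd h1
    linarith
  refine ⟨sSup C, hσ0, hσ1, hle, hgt, ?_, ?_⟩
  · intro h
    refine ⟨1 / 2, by norm_num, by norm_num, ?_⟩
    rw [eq_top_iff]
    intro g _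
    obtain ⟨t, ht, ht1, h', rfl⟩ := S.union g
    rcases le_or_gt t (1 / 2) with h3 | h3
    · exact FF_mono S ht h3 (by norm_num) (mem_FF S _)
    · have h4 := hle (1 / 2) t (by norm_num) h3.le (by rw [h]; exact ht1.le) ht1
      rw [h4]
      exact mem_FF S _
  · rintro ⟨t, ht, ht1, h⟩
    by_contra hc
    have hσ : sSup C < 1 := lt_of_le_of_ne hσ1 hc
    have hm : max t (sSup C) < 1 := max_lt ht1 hσ
    obtain ⟨y, hy, hy1⟩ := exists_between hm
    have h1 := hgt (max t (sSup C)) y (lt_max_of_lt_left ht) (le_max_right _ _) hy hy1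
    have h2 : FF S t ≤ FF S (max t (sSup C)) := FF_mono S ht (le_max_left _ _) hm.le
    rw [h] at h2
    exact absurd (lt_of_le_of_lt h2 h1) not_top_lt

/-- a strictly increasing family of normal subgroups, indexed by `ℝ`, with union `G` -/
def NChain (G : Type) [Group G] : Prop :=
  ∃ f : ℝ → Subgroup G, (∀ t, (f t).Normal) ∧ StrictMono f ∧ ∀ g, ∃ t, g ∈ f t

theorem nchain_of_not_frag (h : ¬ ∃ t : ℝ, 0 < t ∧ t < 1 ∧ FF S t = ⊤) : NChain G := by
  obtain ⟨σ, h0, h1, -, h2, h3⟩ := exists_threshold S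
  have hσ : σ < 1 := lt_of_le_of_ne h1 fun hc => h (h3.1 hc)
  let e := orderIsoIooNegOneOne ℝ
  -- the parametrization of the interval `(σ, 1)`
  let u : ℝ → ℝ := fun t => σ + (1 - σ) * ((1 + (e t : ℝ)) / 2)
  have he : ∀ t, -1 < (e t : ℝ) ∧ (e t : ℝ) < 1 := fun t => (e t).2
  have hu0 : ∀ t, σ < u t := fun t => by
    have h4 : 0 < (1 - σ) * ((1 + (e t : ℝ)) / 2) :=
      mul_pos (sub_pos.2 hσ) (by linarith [(he t).1])
    change σ < σ + (1 - σ) * ((1 + (e t : ℝ)) / 2)
    linarith
  have hu1 : ∀ t, u t < 1 := fun t => by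
    have h4 : (1 - σ) * ((1 + (e t : ℝ)) / 2) < (1 - σ) * 1 :=
      mul_lt_mul_of_pos_left (by linarith [(he t).2]) (sub_pos.2 hσ)
    change σ + (1 - σ) * ((1 + (e t : ℝ)) / 2) < 1
    linarith
  have hum : StrictMono u := fun s t hst => by
    have h4 : (e s : ℝ) < (e t : ℝ) := e.strictMono hst
    have h5 : (1 - σ) * ((1 + (e s : ℝ)) / 2) < (1 - σ) * ((1 + (e t : ℝ)) / 2) :=
      mul_lt_mul_of_pos_left (by linarith) (sub_pos.2 hσ)
    change σ + (1 - σ) * ((1 + (e s : ℝ)) / 2) < σ + (1 - σ) * ((1 + (e t : ℝ)) / 2)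
    linarith
  refine ⟨fun t => FF S (u t), fun t => FF_normal S _, fun s t hst =>
    h2 _ _ (h0.trans_lt (hu0 s)) (hu0 s).le (hum hst) (hu1 t), fun g => ?_⟩
  obtain ⟨t, ht, ht1, h', rfl⟩ := S.union g
  have hm : max t ((σ + 1) / 2) < 1 := max_lt ht1 (by linarith)
  have hm' : σ < max t ((σ + 1) / 2) := lt_max_of_lt_right (by linarith)
  set m := max t ((σ + 1) / 2) with hmd
  have hσ' : 0 < 1 - σ := sub_pos.2 hσ
  have hy : 2 * ((m - σ) / (1 - σ)) - 1 ∈ Ioo (-1 : ℝ) 1 := by
    have h5 : 0 < (m - σ) / (1 - σ) := div_pos (by linarith) hσ'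
    have h6 : (m - σ) / (1 - σ) < 1 := (div_lt_one hσ').2 (by linarith)
    constructor <;> linarith
  refine ⟨e.symm ⟨_, hy⟩, ?_⟩
  have h7 : u (e.symm ⟨_, hy⟩) = m := by
    change σ + (1 - σ) * ((1 + (e (e.symm ⟨_, hy⟩) : ℝ)) / 2) = m
    rw [e.apply_symm_apply]
    change σ + (1 - σ) * ((1 + (2 * ((m - σ) / (1 - σ)) - 1)) / 2) = m
    field_simp
    ring
  change S.d t h' ∈ FF S (u (e.symm ⟨_, hy⟩))
  rw [h7]
  exact FF_mono S ht (le_max_left _ _) hm.le (mem_FF S _)

/-- chains in the abelianization -/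
theorem nchain_of_abelianization (h : Uncountable (Abelianization G)) : NChain G := by
  have : Uncountable (Additive (Abelianization G)) := h
  obtain ⟨f, hf, hf'⟩ := chain_of_uncountable (Additive (Abelianization G))
  let p : G →* Abelianization G := Abelianization.of
  have hp : Function.Surjective p := QuotientGroup.mk_surjective
  refine ⟨fun t => (AddSubgroup.toSubgroup' (f t)).comap p, fun t => ?_, fun s t hst => ?_,
    fun g => ?_⟩
  · exact (inferInstance : (AddSubgroup.toSubgroup' (f t)).Normal).comap _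
  · have h1 := hf hst
    refine lt_of_le_of_ne (fun g hg => h1.le hg) fun h2 => ?_
    have h3 := Subgroup.comap_injective hp h2
    exact h1.ne (AddSubgroup.toSubgroup'.injective h3)
  · exact hf' (Additive.ofMul (p g))

/-- an increasing sequence of proper normal subgroups with union `G` -/
def NSeq (G : Type) [Group G] : Prop :=
  ∃ f : ℕ → Subgroup G, (∀ k, (f k).Normal) ∧ Monotone f ∧ (∀ k, f k ≠ ⊤) ∧ ∀ g, ∃ k, g ∈ f k

theorem NChain.nseq (h : NChain G) : NSeq G := by
  obtain ⟨f, hn, hf, hf'⟩ := h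
  refine ⟨fun k => f k, fun k => hn _, fun i j hij => hf.monotone (by exact_mod_cast hij),
    fun k h => ?_, fun a => ?_⟩
  · have h1 : f (k : ℝ) < f ((k : ℝ) + 1) := hf (lt_add_one _)
    have h2 : f (k : ℝ) = ⊤ := h
    rw [h2] at h1
    exact not_top_lt h1
  · obtain ⟨t, ht⟩ := hf' a
    obtain ⟨k, hk⟩ := exists_nat_ge t
    exact ⟨k, hf.monotone hk ht⟩

include S in
/-- the abelianization of a group with contractions -/
theorem nseq_of_not_perfect (h : commutator G ≠ ⊤) : NSeq G := by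
  classical
  have hfg : ∀ T : Finset (Additive (Abelianization G)),
      AddSubgroup.closure (T : Set (Additive (Abelianization G))) ≠ ⊤ := by
    intro T hT
    apply h
    let p : G →* Abelianization G := Abelianization.of
    have hp : Function.Surjective p := QuotientGroup.mk_surjective
    have hker : p.ker = commutator G := Abelianization.ker_of G
    choose q hq using hp
    refine S.fg (commutator G) (fun s hs hs1 g hg => ?_)
      (T.image fun a => q (Additive.toMul a)) ?_
    · have h1 : commutator G ≤ (commutator G).comap (S.d s) := by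
        rw [← Subgroup.map_le_iff_le_comap, commutator_def, Subgroup.map_commutator]
        exact Subgroup.commutator_mono le_top le_top
      exact h1 hg
    · rw [eq_top_iff]
      intro g _
      have h1 : Additive.ofMul (p g) ∈ AddSubgroup.closure (T : Set (Additive (Abelianization G))) := by
        rw [hT]
        trivial
      have h2 : p g ∈ Subgroup.closure (p '' ((T.image fun a => q (Additive.toMul a) : Finset G) :
          Set G)) := by
        have h3 : AddSubgroup.closure (T : Set (Additive (Abelianization G))) ≤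
            Subgroup.toAddSubgroup (Subgroup.closure (p '' ((T.image fun a =>
              q (Additive.toMul a) : Finset G) : Set G))) := by
          rw [AddSubgroup.closure_le]
          intro a ha
          have h6 : Additive.toMul a ∈ Subgroup.closure (p '' ((T.image fun a =>
              q (Additive.toMul a) : Finset G) : Set G)) :=
            Subgroup.subset_closure ⟨q (Additive.toMul a),
              Finset.mem_coe.2 (Finset.mem_image_of_mem _ ha), hq _⟩
          exact h6
        exact h3 h1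
      rw [← MonoidHom.map_closure] at h2
      obtain ⟨x, hx, hxg⟩ := h2
      have h4 : g * x⁻¹ ∈ commutator G := by
        rw [← hker, MonoidHom.mem_ker, map_mul, map_inv, hxg, mul_inv_cancel]
      have h5 : g = g * x⁻¹ * x := by group
      rw [h5]
      exact Subgroup.mul_mem_sup h4 hx
  obtain ⟨f, hf, hf1, hf2⟩ := seq_of_not_fg _ hfg
  let p : G →* Abelianization G := Abelianization.of
  have hp : Function.Surjective p := QuotientGroup.mk_surjective
  refine ⟨fun k => (AddSubgroup.toSubgroup' (f k)).comap p, fun k => ?_, fun i j hij g hg =>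
    hf hij hg, fun k hk => ?_, fun g => hf2 (Additive.ofMul (p g))⟩
  · exact (inferInstance : (AddSubgroup.toSubgroup' (f k)).Normal).comap _
  · apply hf1 k
    rw [eq_top_iff]
    intro a _
    obtain ⟨g, hg⟩ := hp (Additive.toMul a)
    have hk' : (AddSubgroup.toSubgroup' (f k)).comap p = ⊤ := hk
    have h1 : g ∈ (AddSubgroup.toSubgroup' (f k)).comap p := by
      rw [hk']
      exact Subgroup.mem_top g
    have h2 : Additive.ofMul (p g) ∈ f k := h1
    rw [hg] at h2
    exact h2

end Pool.Agent.H72.NS
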