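import Pool.Agent.H72.NS.Ch

/-!
Chain conditions for the normal subgroups of a group.
-/

set_option autoImplicit false

open Set Cardinal

namespace Pool.Agent.H72.NS

variable {G : Type} [Group G]

theorem fg_of_simple (h : IsSimpleGroup G) :
    ∃ Z : Finset G, Subgroup.normalClosure (Z : Set G) = ⊤ := by
  have := h.toNontrivial
  obtain ⟨g, hg⟩ := exists_ne (1 : G)
  refine ⟨{g}, (h.eq_bot_or_eq_top_of_normal _ Subgroup.normalClosure_normal).resolve_left
    fun h1 => hg ?_⟩
  have h2 : g ∈ Subgroup.normalClosure (({g} : Finset G) : Set G) :=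
    Subgroup.subset_normalClosure (by simp)
  rw [h1] at h2
  exact Subgroup.mem_bot.1 h2

theorem not_nseq_of_fg (h : ∃ Z : Finset G, Subgroup.normalClosure (Z : Set G) = ⊤) :
    ¬ NSeq G := by
  classical
  rintro ⟨f, hn, hm, hp, hu⟩
  obtain ⟨Z, hZ⟩ := h
  choose k hk using hu
  have h1 : (Z : Set G) ⊆ f (Z.sup k) := fun z hz =>
    hm (Finset.le_sup (f := k) (Finset.mem_coe.1 hz)) (hk z)
  have := hn (Z.sup k)
  have h2 := Subgroup.normalClosure_le_normal h1
  rw [hZ] at h2
  exact hp _ (top_le_iff.1 h2)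

theorem finite_normal (h : IsSimpleGroup G) : Finite {N : Subgroup G // N.Normal} := by
  have h1 : ∀ N : {N : Subgroup G // N.Normal}, N.1 ∈ ({⊥, ⊤} : Set (Subgroup G)) := fun N =>
    h.eq_bot_or_eq_top_of_normal N.1 N.2
  have hfin : ({⊥, ⊤} : Set (Subgroup G)).Finite := by simp
  have := hfin.to_subtype
  exact Finite.of_injective (β := ({⊥, ⊤} : Set (Subgroup G))) (fun N => ⟨N.1, h1 N⟩)
    fun N N' h2 => Subtype.ext (congrArg (fun x : ({⊥, ⊤} : Set (Subgroup G)) => x.1) h2)

theorem not_nseq_of_acc (h : WellFoundedGT {N : Subgroup G // N.Normal}) : ¬ NSeq G := by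
  rintro ⟨f, hn, hm, hp, hu⟩
  let g : ℕ →o {N : Subgroup G // N.Normal} := ⟨fun k => ⟨f k, hn k⟩, fun i j hij => hm hij⟩
  obtain ⟨m, hm'⟩ := WellFoundedGT.monotone_chain_condition g
  refine hp m ?_
  rw [eq_top_iff]
  intro x _
  obtain ⟨k, hk⟩ := hu x
  have h1 := hm (le_max_right m k) hk
  have h2 : f m = f (max m k) := congrArg Subtype.val (hm' (max m k) (le_max_left _ _))
  rw [h2]
  exact h1

theorem not_nchain_of_dcc (h : WellFoundedLT {N : Subgroup G // N.Normal}) : ¬ NChain G := by
  rintro ⟨f, hn, hm, -⟩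
  let g : ℕ → {N : Subgroup G // N.Normal} := fun k => ⟨f (-(k : ℝ)), hn _⟩
  have hg : StrictAnti g := fun i j hij => hm (neg_lt_neg (by exact_mod_cast hij))
  have h1 : ∀ k, g (k + 1) < g k := fun k => hg (Nat.lt_succ_self k)
  exact (RelEmbedding.natGT g h1).not_wellFounded h.wf

theorem not_nchain_of_card (h : #{N : Subgroup G // N.Normal} < 𝔠) : ¬ NChain G := by
  rintro ⟨f, hn, hm, -⟩
  have h1 : Function.Injective fun t : ℝ => (⟨f t, hn t⟩ : {N : Subgroup G // N.Normal}) :=
    fun s t hst => hm.injective (congrArg Subtype.val hst)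
  have h2 := Cardinal.mk_le_of_injective h1
  rw [Cardinal.mk_real] at h2
  exact absurd h (not_lt.2 h2)

/-- the equivalences for a group which is simple or the union of a chain -/
theorem tfae_of_nchain (h : IsSimpleGroup G ∨ NChain G) :
    [IsSimpleGroup G,
      ¬ NSeq G,
      ∃ Z : Finset G, Subgroup.normalClosure (Z : Set G) = ⊤,
      WellFoundedGT {N : Subgroup G // N.Normal},
      WellFoundedLT {N : Subgroup G // N.Normal},
      #{N : Subgroup G // N.Normal} < 𝔠].TFAE := by
  have key : ¬ NChain G → IsSimpleGroup G := fun h1 => h.resolve_right h1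
  tfae_have 1 → 3 := fg_of_simple
  tfae_have 3 → 2 := not_nseq_of_fg
  tfae_have 2 → 1 := fun h1 => key fun h2 => h1 h2.nseq
  tfae_have 1 → 4 := fun h1 => by
    have := finite_normal h1
    infer_instance
  tfae_have 4 → 2 := not_nseq_of_acc
  tfae_have 1 → 5 := fun h1 => by
    have := finite_normal h1
    infer_instance
  tfae_have 5 → 1 := fun h1 => key (not_nchain_of_dcc h1)
  tfae_have 1 → 6 := fun h1 => by
    have := finite_normal h1
    exact (Cardinal.mk_lt_aleph0).trans Cardinal.aleph0_lt_continuum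
  tfae_have 6 → 1 := fun h1 => key (not_nchain_of_card h1)
  tfae_finish

/-- the equivalences for a group which is simple or the union of a sequence -/
theorem tfae_of_nseq (h : IsSimpleGroup G ∨ NSeq G) :
    [IsSimpleGroup G,
      ¬ NSeq G,
      ∃ Z : Finset G, Subgroup.normalClosure (Z : Set G) = ⊤,
      WellFoundedGT {N : Subgroup G // N.Normal}].TFAE := by
  tfae_have 1 → 3 := fg_of_simple
  tfae_have 3 → 2 := not_nseq_of_fg
  tfae_have 2 → 1 := fun h1 => h.resolve_right h1
  tfae_have 1 → 4 := fun h1 => by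
    have := finite_normal h1
    infer_instance
  tfae_have 4 → 2 := not_nseq_of_acc
  tfae_finish

end Pool.Agent.H72.NS
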