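import Pool.Graph.R_pool_sql_team_seeded_3997aac3.Q175.HW.Cn
import Pool.Graph.R_pool_sql_team_seeded_3997aac3.Q175.HU.Mn4
import Pool.Agent.H72.NS.Tf

/-!
The normal subgroups of the group of Hamiltonian homeomorphisms of the ball.
-/

set_option autoImplicit false

open Set Cardinal

namespace Pool.Agent.H72.NS

open Pool.Agent.Q175.HM Pool.Agent.Q175.HU Pool.Agent.Y453.HB

variable {n : ℕ}

/-- the normal closure of the elements which are dilates with the factor `r` -/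
def NB (S : Subgroup (E n ≃ₜ E n)) (r : ℝ) : Subgroup S :=
  Subgroup.normalClosure (IB S r)

theorem NB_eq (hn : 0 < n) {r : ℝ} (hr : 0 < r) (hr1 : r ≤ 1) :
    NB (HamBar n) r = FF (hamDS hn) r := by
  unfold NB FF
  rw [IB_eq hr hr1]
  rfl

/-- the structure of the family of the normal subgroups `NB S r` -/
def TH (S : Subgroup (E n ≃ₜ E n)) : Prop := ∃ σ : ℝ, 0 ≤ σ ∧ σ ≤ 1 ∧
  (∀ x y : ℝ, 0 < x → x ≤ y → y ≤ σ → y < 1 → NB S x = NB S y) ∧
  (∀ x y : ℝ, 0 < x → σ ≤ x → x < y → y < 1 → NB S x < NB S y) ∧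
  (σ = 1 ↔ ∃ t : ℝ, 0 < t ∧ t < 1 ∧ NB S t = ⊤)

theorem ham_th (hn : 0 < n) : TH (HamBar n) := by
  obtain ⟨σ, h0, h1, h2, h3, h4⟩ := exists_threshold (hamDS hn)
  refine ⟨σ, h0, h1, fun x y hx hxy hy hy1 => ?_, fun x y hx hσ hxy hy => ?_, h4.trans ?_⟩
  · rw [NB_eq hn hx (hxy.trans hy1.le), NB_eq hn (hx.trans_le hxy) hy1.le]
    exact h2 x y hx hxy hy hy1
  · rw [NB_eq hn hx (hxy.trans hy).le, NB_eq hn (hx.trans hxy) hy.le]
    exact h3 x y hx hσ hxy hy
  · refine exists_congr fun t => ?_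
    constructor
    · rintro ⟨ht, ht1, h⟩
      exact ⟨ht, ht1, (NB_eq hn ht ht1.le).trans h⟩
    · rintro ⟨ht, ht1, h⟩
      exact ⟨ht, ht1, (NB_eq hn ht ht1.le).symm.trans h⟩

theorem ham_alt (hn : 0 < n) : IsSimpleGroup (HamBar n) ∨ NChain (HamBar n) := by
  by_cases hf : ∃ t : ℝ, 0 < t ∧ t < 1 ∧ FF (hamDS hn) t = ⊤
  · by_cases hp : commutator (HamBar n) = ⊤
    · left
      have h1 : IsSimpleGroup (HamBar n) ↔ FRG (HamBar n) ∧ commutator (HamBar n) = ⊤ :=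
        (stm (n := n) hn).1.out 0 1
      refine h1.2 ⟨frg_iff.2 ?_, hp⟩
      obtain ⟨t, ht, ht1, h⟩ := hf
      exact ⟨t, ht, ht1, h⟩
    · right
      have h := (Pool.Agent.Q175.HW.st (n := n) hn).2.2.2.2.1
      have h1 := h.resolve_left hp
      refine nchain_of_abelianization ?_
      rw [← not_countable_iff]
      intro hc
      have h2 : #(Abelianization (HamBar n)) ≤ ℵ₀ := Cardinal.mk_le_aleph0
      have h3 : #(Abelianization (HamBar n)) = 𝔠 := h1
      rw [h3] at h2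
      exact absurd h2 (not_le.2 Cardinal.aleph0_lt_continuum)
  · exact Or.inr (nchain_of_not_frag _ hf)

end Pool.Agent.H72.NS
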